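import Pool.Agent.Lib.MP_078aef_co.Cut

/-!
Removing a maximal family of edge-disjoint `K₄`.
-/

namespace Pool.Agent.RamseyRow

open Finset Pool.Agent.RamseyHam

variable {V : Type*} [DecidableEq V]

/-- the pairs inside a set -/
def ein (S : Finset V) : Finset (Sym2 V) := S.offDiag.image (Function.uncurry Sym2.mk)

theorem mem_ein (S : Finset V) (a b : V) : s(a, b) ∈ ein S ↔ a ∈ S ∧ b ∈ S ∧ a ≠ b := by
  unfold ein
  rw [mem_image]
  constructor
  · rintro ⟨⟨x, y⟩, h, hxy⟩
    rw [mem_offDiag] at h
    rw [Function.uncurry_apply_pair, Sym2.eq_iff] at hxy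
    rcases hxy with ⟨rfl, rfl⟩ | ⟨rfl, rfl⟩
    · exact h
    · exact ⟨h.2.1, h.1, h.2.2.symm⟩
  · rintro ⟨h1, h2, h3⟩
    exact ⟨(a, b), mem_offDiag.mpr ⟨h1, h2, h3⟩, rfl⟩

theorem card_ein (S : Finset V) : (ein S).card = S.card.choose 2 :=
  Sym2.card_image_offDiag S

theorem ein_mono {S S' : Finset V} (h : S ⊆ S') : ein S ⊆ ein S' := by
  intro e
  induction e using Sym2.ind with
  | _ a b =>
    rw [mem_ein, mem_ein]
    exact fun h' => ⟨h h'.1, h h'.2.1, h'.2.2⟩

variable [Fintype V]

/-- the `4`-sets which meet `S` in at least two points -/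
def meet (S : Finset V) : Finset (Finset V) :=
  (univ.powersetCard 4).filter (fun K => 2 ≤ (K ∩ S).card)

/-- if a graph has many edges in every `s`-set, and not too many edge-disjoint `K₄` with an edge
in the same set, then a subgraph has no `K₄` and no independent `s`-set -/
theorem k4_det (F : Finset (Sym2 V)) (s m : ℕ)
    (h1 : ∀ S ∈ (univ : Finset V).powersetCard s, ¬ (F ∩ ein S).card ≤ 6 * m)
    (h2 : ∀ S ∈ (univ : Finset V).powersetCard s, ¬ ∃ M ∈ (meet S).powersetCard m,
      (M : Set (Finset V)).PairwiseDisjoint ein ∧ ∀ K ∈ M, ein K ⊆ F) :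
    ∃ H : SimpleGraph V, KS 4 s H := by
  classical
  set Fam : Finset (Finset (Finset V)) := ((univ : Finset V).powersetCard 4).powerset.filter
    (fun M => (M : Set (Finset V)).PairwiseDisjoint ein ∧ ∀ K ∈ M, ein K ⊆ F) with hFam
  obtain ⟨M, hM, hmax⟩ := Fam.exists_max_image card
    ⟨∅, by rw [hFam, mem_filter, mem_powerset]; exact ⟨empty_subset _, by simp, by simp⟩⟩
  rw [hFam, mem_filter, mem_powerset] at hM
  obtain ⟨hM4, hMd, hMF⟩ := hM
  set F' := F \ M.biUnion ein with hF'
  set H : SimpleGraph V := SimpleGraph.fromEdgeSet (F' : Set (Sym2 V)) with hH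
  have hadj : ∀ a b, H.Adj a b ↔ s(a, b) ∈ F' ∧ a ≠ b := by
    intro a b
    rw [hH, SimpleGraph.fromEdgeSet_adj, mem_coe]
  refine ⟨H, ?_, ?_⟩
  · -- no `K₄`
    intro K hK
    have hKF' : ein K ⊆ F' := by
      intro e
      induction e using Sym2.ind with
      | _ a b =>
        rw [mem_ein]
        rintro ⟨ha, hb, hab⟩
        exact ((hadj a b).mp (hK.isClique ha hb hab)).1
    have hKF : ein K ⊆ F := hKF'.trans sdiff_subset
    have hKd : ∀ K' ∈ M, Disjoint (ein K) (ein K') := by
      intro K' hK'
      rw [disjoint_left]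
      intro e he he'
      exact (mem_sdiff.mp (hKF' he)).2 (mem_biUnion.mpr ⟨K', hK', he'⟩)
    have hne : (ein K).Nonempty := by
      rw [← card_pos, card_ein, hK.card_eq]
      decide
    have hKM : K ∉ M := by
      intro h
      have := hKd K h
      rw [disjoint_self, bot_eq_empty] at this
      rw [this] at hne
      exact not_nonempty_empty hne
    have hins : insert K M ∈ Fam := by
      rw [hFam, mem_filter, mem_powerset]
      refine ⟨?_, ?_, ?_⟩
      · intro K' hK'
        rcases mem_insert.mp hK' with rfl | h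
        · exact mem_powersetCard.mpr ⟨subset_univ _, hK.card_eq⟩
        · exact hM4 h
      · rw [coe_insert]
        refine hMd.insert_of_notMem hKM ?_
        intro K' hK'
        exact hKd K' hK'
      · intro K' hK'
        rcases mem_insert.mp hK' with rfl | h
        · exact hKF
        · exact hMF K' h
    have := hmax _ hins
    rw [card_insert_of_notMem hKM] at this
    omega
  · -- no independent set
    intro S hS
    have hSm : S ∈ (univ : Finset V).powersetCard s :=
      mem_powersetCard.mpr ⟨subset_univ _, hS.card_eq⟩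
    set MS := M.filter (fun K => 2 ≤ (K ∩ S).card) with hMS
    have hcov : F ∩ ein S ⊆ MS.biUnion ein := by
      intro e
      induction e using Sym2.ind with
      | _ a b =>
        rw [mem_inter, mem_ein]
        rintro ⟨heF, ha, hb, hab⟩
        have hnadj : ¬ H.Adj a b := by
          have := hS.isClique ha hb hab
          rw [SimpleGraph.compl_adj] at this
          exact this.2
        rw [hadj] at hnadj
        have h3 : s(a, b) ∈ M.biUnion ein := by
          by_contra hcon
          exact hnadj ⟨mem_sdiff.mpr ⟨heF, hcon⟩, hab⟩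
        obtain ⟨K, hK, heK⟩ := mem_biUnion.mp h3
        rw [mem_ein] at heK
        refine mem_biUnion.mpr ⟨K, ?_, (mem_ein K a b).mpr heK⟩
        rw [hMS, mem_filter]
        refine ⟨hK, ?_⟩
        have h4 : ({a, b} : Finset V) ⊆ K ∩ S := by
          intro x hx
          rcases mem_insert.mp hx with rfl | hx
          · exact mem_inter.mpr ⟨heK.1, ha⟩
          · rw [mem_singleton] at hx
            subst hx
            exact mem_inter.mpr ⟨heK.2.1, hb⟩
        have h5 := card_le_card h4
        rwa [card_pair hab] at h5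
    have h3 : (F ∩ ein S).card ≤ MS.card * 6 := by
      refine (card_le_card hcov).trans (card_biUnion_le_card_mul _ _ _ (fun K hK => ?_))
      have := hM4 (mem_filter.mp hK).1
      rw [card_ein, (mem_powersetCard.mp this).2]
      decide
    have h4 := h1 S hSm
    have h5 : m ≤ MS.card := by omega
    obtain ⟨M', hM', hM'c⟩ := exists_subset_card_eq h5
    refine h2 S hSm ⟨M', mem_powersetCard.mpr ⟨?_, hM'c⟩, ?_, ?_⟩
    · intro K hK
      have hK' := mem_filter.mp (hM' hK)
      unfold meet
      exact mem_filter.mpr ⟨hM4 hK'.1, hK'.2⟩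
    · exact hMd.subset (coe_subset.mpr (hM'.trans (filter_subset _ _)))
    · intro K hK
      exact hMF K (mem_filter.mp (hM' hK)).1

/-- the number of `4`-sets which meet `S` -/
theorem card_meet (S : Finset V) : (meet S).card ≤ S.card ^ 2 * Fintype.card V ^ 2 := by
  classical
  have h1 : meet S ⊆ ((S ×ˢ S) ×ˢ ((univ : Finset V) ×ˢ (univ : Finset V))).image
      (fun x => ({x.1.1, x.1.2, x.2.1, x.2.2} : Finset V)) := by
    intro K hK
    unfold meet at hK
    rw [mem_filter, mem_powersetCard] at hK
    obtain ⟨⟨-, hK4⟩, h2⟩ := hK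
    obtain ⟨P, hP, hPc⟩ := exists_subset_card_eq h2
    obtain ⟨a, b, hab, rfl⟩ := card_eq_two.mp hPc
    have h3 : (K \ {a, b}).card = 2 := by
      rw [card_sdiff_of_subset (hP.trans inter_subset_left), hK4, hPc]
    obtain ⟨c, d, hcd, hcd'⟩ := card_eq_two.mp h3
    rw [mem_image]
    refine ⟨((a, b), (c, d)), ?_, ?_⟩
    · rw [mem_product, mem_product, mem_product]
      exact ⟨⟨(mem_inter.mp (hP (mem_insert_self a _))).2,
        (mem_inter.mp (hP (mem_insert_of_mem (mem_singleton_self b)))).2⟩, mem_univ _, mem_univ _⟩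
    · have h4 : K = {a, b} ∪ (K \ {a, b}) :=
        (union_sdiff_of_subset (hP.trans inter_subset_left)).symm
      rw [h4, hcd']
      ext x
      simp only [mem_insert, mem_singleton, mem_union]
      tauto
  refine (card_le_card h1).trans (card_image_le.trans (le_of_eq ?_))
  rw [card_product, card_product, card_product, card_univ]
  ring

end Pool.Agent.RamseyRow
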