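import Mathlib

/-!
Records of `f s / s ^ 2`.
-/

namespace Pool.Agent.RamseyRow

/-- an unbounded quotient `f s / s ^ 2` has arbitrarily late records -/
theorem exists_record (f : ℕ → ℕ) (hunb : ∀ M : ℕ, ∃ s, 2 ≤ s ∧ M * s ^ 2 ≤ f s) (S : ℕ) :
    ∃ s, S ≤ s ∧ 2 ≤ s ∧ s ^ 2 ≤ f s ∧ ∀ p, 2 ≤ p → p < s → f p * s ^ 2 ≤ f s * p ^ 2 := by
  classical
  -- a bound for the values up to `S`
  obtain ⟨M, hM⟩ : ∃ M : ℕ, 1 ≤ M ∧ ∀ p, p ≤ S → f p < M := by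
    refine ⟨(Finset.range (S + 1)).sup f + 1, by omega, fun p hp => ?_⟩
    have := Finset.le_sup (f := f) (Finset.mem_range.mpr (show p < S + 1 by omega))
    omega
  obtain ⟨s0, hs0, hf0⟩ := hunb M
  -- the first maximum of `f p / p ^ 2` on `[2, s0]`
  obtain ⟨a, ha, hmax⟩ := (Finset.Icc 2 s0).exists_max_image
    (fun p => (f p : ℚ) / (p : ℚ) ^ 2) ⟨2, Finset.mem_Icc.mpr ⟨le_rfl, hs0⟩⟩
  have hex : ∃ b, 2 ≤ b ∧ b ≤ s0 ∧ (f b : ℚ) / (b : ℚ) ^ 2 = (f a : ℚ) / (a : ℚ) ^ 2 :=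
    ⟨a, (Finset.mem_Icc.mp ha).1, (Finset.mem_Icc.mp ha).2, rfl⟩
  obtain ⟨hb2, hb0, hbe⟩ := Nat.find_spec hex
  set b := Nat.find hex with hb
  have hbpos : (0 : ℚ) < (b : ℚ) ^ 2 := by
    have : (0 : ℚ) < b := by exact_mod_cast (show 0 < b by omega)
    positivity
  have hs0pos : (0 : ℚ) < (s0 : ℚ) ^ 2 := by
    have : (0 : ℚ) < s0 := by exact_mod_cast (show 0 < s0 by omega)
    positivity
  have hMb : (M : ℚ) ≤ (f b : ℚ) / (b : ℚ) ^ 2 := by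
    rw [hbe]
    refine le_trans ?_ (hmax s0 (Finset.mem_Icc.mpr ⟨hs0, le_rfl⟩))
    rw [le_div_iff₀ hs0pos]
    exact_mod_cast hf0
  have hMb' : M * b ^ 2 ≤ f b := by
    rw [le_div_iff₀ hbpos] at hMb
    exact_mod_cast hMb
  have hone : 1 ≤ b ^ 2 := Nat.one_le_pow _ _ (by omega)
  refine ⟨b, ?_, hb2, ?_, ?_⟩
  · by_contra hlt
    push Not at hlt
    have h1 := hM.2 b hlt.le
    have h2 : M ≤ M * b ^ 2 := Nat.le_mul_of_pos_right _ (by omega)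
    omega
  · have h1 := hM.1
    nlinarith
  · intro p hp hpb
    have hppos : (0 : ℚ) < (p : ℚ) ^ 2 := by
      have : (0 : ℚ) < p := by exact_mod_cast (show 0 < p by omega)
      positivity
    have h1 : (f p : ℚ) / (p : ℚ) ^ 2 ≤ (f b : ℚ) / (b : ℚ) ^ 2 := by
      rw [hbe]
      exact hmax p (Finset.mem_Icc.mpr ⟨hp, by omega⟩)
    rw [div_le_div_iff₀ hppos hbpos] at h1
    exact_mod_cast h1

/-- at a record the quotient condition implies the gap condition -/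
theorem gap_of_record (f : ℕ → ℕ) (s : ℕ) (hs : 5 ≤ s) (hf : s ^ 2 ≤ f s)
    (hrec : ∀ p, 2 ≤ p → p < s → f p * s ^ 2 ≤ f s * p ^ 2) (p q : ℕ) (hp : 2 ≤ p) (hq : 2 ≤ q)
    (hpq : p + q ≤ s + 1) : f p + f q + s ≤ f s + 2 := by
  have h1 := hrec p hp (by omega)
  have h2 := hrec q hq (by omega)
  have h3 : p ^ 2 + q ^ 2 + 2 * s ≤ s ^ 2 + 5 := by
    obtain ⟨a, rfl⟩ : ∃ a, p = a + 2 := ⟨p - 2, by omega⟩
    obtain ⟨b, rfl⟩ : ∃ b, q = b + 2 := ⟨q - 2, by omega⟩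
    obtain ⟨c, rfl⟩ : ∃ c, s = a + b + 3 + c := ⟨s - (a + b + 3), by omega⟩
    nlinarith [Nat.zero_le (a * b), Nat.zero_le (c * a), Nat.zero_le (c * b), Nat.zero_le (c * c)]
  by_contra hcon
  push Not at hcon
  have h4 : (f p + f q) * s ^ 2 ≤ f s * (p ^ 2 + q ^ 2) := by nlinarith
  have h5 : (f s + 3) * s ^ 2 ≤ (f p + f q + s) * s ^ 2 := Nat.mul_le_mul_right _ (by omega)
  have h6 : f s * (p ^ 2 + q ^ 2) + f s * (2 * s) ≤ f s * (s ^ 2 + 5) := by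
    rw [← Nat.mul_add]
    exact Nat.mul_le_mul_left _ h3
  -- `(f s + 3) s² + 2 s f s ≤ f s (s² + 5) + s³`
  have h7 : (f s + 3) * s ^ 2 + f s * (2 * s) ≤ f s * (s ^ 2 + 5) + s * s ^ 2 := by nlinarith
  have h8 : 3 * s ^ 2 + f s * (2 * s) ≤ 5 * f s + s * s ^ 2 := by nlinarith
  -- with `f s ≥ s²`
  obtain ⟨u, rfl⟩ : ∃ u, s = u + 5 := ⟨s - 5, by omega⟩
  nlinarith [Nat.zero_le u]

end Pool.Agent.RamseyRow
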