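import Pool.Agent.Lib.MP_078aef_co.Ham

/-!
A Ramsey-critical graph is Hamiltonian if `R(k,s)` is a little superadditive at `s`.
-/

namespace Pool.Agent.RamseyRow

open Finset Pool.Agent.RamseyHam

variable {V : Type*} [Fintype V] [DecidableEq V] {G : SimpleGraph V}

/-- a nonempty part has a bound by the Ramsey number belonging to its independence number -/
theorem part_bound {k s : ℕ} (hG : KS k s G) (R : ℕ → ℕ) (hR : ∀ p, 2 ≤ p → IsRam k p (R p))
    (A : Finset V) (hA : A.Nonempty) : ∃ p, 2 ≤ p ∧ A.card ≤ R p - 1 ∧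
      ∃ I ⊆ A, Gᶜ.IsNClique (p - 1) I := by
  classical
  have hex : ∃ p, ∀ I ⊆ A, ¬ Gᶜ.IsNClique p I := by
    refine ⟨A.card + 1, fun I hI h => ?_⟩
    have := card_le_card hI
    rw [h.card_eq] at this
    omega
  obtain ⟨hspec, hmin⟩ : (∀ I ⊆ A, ¬ Gᶜ.IsNClique (Nat.find hex) I) ∧
      ∀ m < Nat.find hex, ¬ ∀ I ⊆ A, ¬ Gᶜ.IsNClique m I :=
    ⟨Nat.find_spec hex, fun m hm => Nat.find_min hex hm⟩
  set p := Nat.find hex with hp
  have hp2 : 2 ≤ p := by
    by_contra hlt
    have h01 : p = 0 ∨ p = 1 := by omega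
    obtain ⟨v, hv⟩ := hA
    rcases h01 with h | h
    · rw [h] at hspec
      exact hspec ∅ (by simp) (by simp [SimpleGraph.isNClique_iff])
    · rw [h] at hspec
      exact hspec {v} (by simpa using hv) (by simp [SimpleGraph.isNClique_iff])
  refine ⟨p, hp2, ?_, ?_⟩
  · have hKS : KS k p (SimpleGraph.comap (Subtype.val : {x // x ∈ A} → V) G) := by
      refine ⟨hG.1.comap (SimpleGraph.Embedding.comap ⟨_, Subtype.val_injective⟩ G).isContained, ?_⟩
      intro Q hQ
      apply hspec (Q.map ⟨Subtype.val, Subtype.val_injective⟩)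
      · intro x hx
        obtain ⟨y, hy, rfl⟩ := mem_map.mp hx
        exact y.2
      · refine ⟨?_, by rw [card_map, hQ.card_eq]⟩
        intro x hx y hy hxy
        simp only [coe_map, Function.Embedding.coeFn_mk, Set.mem_image, mem_coe] at hx hy
        obtain ⟨x', hx', rfl⟩ := hx
        obtain ⟨y', hy', rfl⟩ := hy
        have := hQ.isClique hx' hy' (fun h => hxy (by rw [h]))
        rw [SimpleGraph.compl_adj] at this ⊢
        exact ⟨hxy, fun h => this.2 h⟩
    have h1 := (hR p hp2).card_lt hKS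
    simp only [Fintype.card_coe] at h1
    omega
  · have h1 := hmin (p - 1) (by omega)
    by_contra hcon
    apply h1
    intro I hI hc
    exact hcon ⟨I, hI, hc⟩

theorem two_parts {k s : ℕ} (hG : KS k s G) (R : ℕ → ℕ) (hR : ∀ p, 2 ≤ p → IsRam k p (R p))
    (A B : Finset V) (hA : A.Nonempty) (hB : B.Nonempty) (hdis : Disjoint A B)
    (hno : ∀ x ∈ A, ∀ y ∈ B, ¬ G.Adj x y) :
    ∃ p q, 2 ≤ p ∧ 2 ≤ q ∧ p + q ≤ s + 1 ∧ A.card ≤ R p - 1 ∧ B.card ≤ R q - 1 := by
  obtain ⟨p, hp2, hAc, IA, hIA, hIAc⟩ := part_bound hG R hR A hA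
  obtain ⟨q, hq2, hBc, IB, hIB, hIBc⟩ := part_bound hG R hR B hB
  refine ⟨p, q, hp2, hq2, ?_, hAc, hBc⟩
  have hcl : Gᶜ.IsClique ((IA ∪ IB : Finset V) : Set V) := by
    intro x hx y hy hxy
    rw [SimpleGraph.compl_adj]
    refine ⟨hxy, ?_⟩
    simp only [coe_union, Set.mem_union, mem_coe] at hx hy
    rcases hx with hx | hx <;> rcases hy with hy | hy
    · have := hIAc.isClique hx hy hxy
      rw [SimpleGraph.compl_adj] at this
      exact this.2
    · exact hno x (hIA hx) y (hIB hy)
    · exact fun h => hno y (hIA hy) x (hIB hx) h.symm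
    · have := hIBc.isClique hx hy hxy
      rw [SimpleGraph.compl_adj] at this
      exact this.2
  have h1 := clique_card_lt hG.2 hcl
  have hd : Disjoint IA IB := disjoint_of_subset_left hIA (disjoint_of_subset_right hIB hdis)
  rw [card_union_of_disjoint hd, hIAc.card_eq, hIBc.card_eq] at h1
  omega

/-- few vertices of a longest cycle have a neighbour in a missed component -/
theorem few_T {k s m : ℕ} {c : ℕ → V} {H : Set V} (hG : KS k s G) (hc : CF G c m)
    (hmax : ∀ l, Cyc G l → l.length ≤ m) (hH : HConn G H) (hoff : ∀ x ∈ H, ∀ i < m, c i ≠ x)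
    {h0 : V} (hh0 : h0 ∈ H) (T : Finset ℕ) (hT : ∀ i, i ∈ T ↔ i < m ∧ TT G c H i)
    (hlast : m - 1 ∉ T) : T.card + 2 ≤ s := by
  classical
  have h3 := hc.three
  have hTm : ∀ i ∈ T, i + 1 < m := by
    intro i hi
    have h1 := ((hT i).mp hi).1
    rcases Nat.lt_or_ge (i + 1) m with h | h
    · exact h
    · have : i = m - 1 := by omega
      subst this
      exact absurd hi hlast
  set X : Finset V := insert h0 (T.image (fun i => c (i + 1))) with hX
  have hinj : Set.InjOn (fun i => c (i + 1)) T := by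
    intro i hi j hj hij
    have h1 := hTm i hi
    have h2 := hTm j hj
    have := hc.inj (i + 1) (j + 1) h1 h2 hij
    omega
  have hnot : h0 ∉ T.image (fun i => c (i + 1)) := by
    intro h
    obtain ⟨i, hi, hi'⟩ := mem_image.mp h
    exact hoff h0 hh0 (i + 1) (hTm i hi) hi'
  have hcard : X.card = T.card + 1 := by
    rw [hX, card_insert_of_notMem hnot, card_image_of_injOn hinj]
  have hh : ∀ i ∈ T, ¬ G.Adj (c (i + 1)) h0 := by
    intro i hi hadj
    exact E0 hc hmax hH hoff (hTm i hi) ((hT i).mp hi).2 ⟨h0, hh0, hadj⟩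
  have hij : ∀ i ∈ T, ∀ j ∈ T, i < j → ¬ G.Adj (c (i + 1)) (c (j + 1)) := by
    intro i hi j hj hlt hadj
    exact E1 hc hmax hH hoff hlt (hTm j hj) ((hT i).mp hi).2 ((hT j).mp hj).2 hadj
  have hcl : Gᶜ.IsClique (X : Set V) := by
    intro x hx y hy hxy
    rw [SimpleGraph.compl_adj]
    refine ⟨hxy, ?_⟩
    rw [hX, mem_coe, mem_insert, mem_image] at hx hy
    rcases hx with rfl | ⟨i, hi, rfl⟩
    · rcases hy with rfl | ⟨j, hj, rfl⟩
      · exact absurd rfl hxy
      · exact fun h => hh j hj h.symm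
    · rcases hy with rfl | ⟨j, hj, rfl⟩
      · exact hh i hi
      · rcases lt_trichotomy i j with h | h | h
        · exact hij i hi j hj h
        · subst h
          exact absurd rfl hxy
        · exact fun h' => hij j hj i hi h h'.symm
  have h1 := clique_card_lt hG.2 hcl
  rw [hcard] at h1
  omega

/-- the gap condition implies that a critical graph has a spanning cycle -/
theorem row_main {k s : ℕ} (hk : 4 ≤ k) (hs : 2 ≤ s) (hG : KS k s G) (R : ℕ → ℕ)
    (hR : ∀ p, 2 ≤ p → IsRam k p (R p)) (hcrit : Fintype.card V + 1 = R s)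
    (hgap : ∀ p q, 2 ≤ p → 2 ≤ q → p + q ≤ s + 1 → R p + R q + s ≤ R s + 2) :
    ∃ l, Cyc G l ∧ l.length = Fintype.card V := by
  classical
  -- there is a cycle
  have hcyc : ∃ l, Cyc G l := by
    have hncf : ¬ G.CliqueFree (k - 1) := by
      intro hcf
      have h1 : KS (k - 1 + 1) s (dom G) := dom_KS hs ⟨hcf, hG.2⟩
      rw [show k - 1 + 1 = k by omega] at h1
      have h2 := (hR s hs).card_lt h1
      simp at h2
      omega
    have h3 : ¬ G.CliqueFree 3 := fun h => hncf (h.mono (by omega))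
    have : ∃ S, G.IsNClique 3 S := by
      by_contra hcon
      exact h3 (fun S hS => hcon ⟨S, hS⟩)
    obtain ⟨S, hS⟩ := this
    exact cyc_of_triangle hS
  obtain ⟨l, hl, hmax⟩ := exists_longest hcyc
  refine ⟨l, hl, ?_⟩
  by_contra hne
  have hlt : l.length < Fintype.card V := lt_of_le_of_ne hl.1.length_le_card hne
  obtain ⟨c, hc, hcl⟩ := hl.toCF
  obtain ⟨m, hm⟩ : ∃ m, m = l.length := ⟨_, rfl⟩
  rw [← hm] at hlt hc hcl hmax
  have h3 := hc.three
  obtain ⟨h0, hh0⟩ : ∃ h0, ∀ i < m, c i ≠ h0 := by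
    by_contra hcon
    push Not at hcon
    have h1 : (univ : Finset V) ⊆ (range m).image c := by
      intro x _
      obtain ⟨i, hi, rfl⟩ := hcon x
      exact mem_image.mpr ⟨i, mem_range.mpr hi, rfl⟩
    have h2 := card_le_card h1
    have h3 := (card_image_le (s := range m) (f := c))
    rw [card_univ] at h2
    rw [card_range] at h3
    omega
  set H : Set V := {x | (offG G c m).Reachable h0 x} with hH
  have hHc : HConn G H := HConn_reach c m h0
  have hoff : ∀ x ∈ H, ∀ i < m, c i ≠ x := fun x hx => reach_off hh0 hx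
  have hmem0 : h0 ∈ H := SimpleGraph.Reachable.refl _
  -- a vertex of the cycle without neighbours in `H`
  obtain ⟨i0, hi0, hTi0⟩ : ∃ i < m, ¬ TT G c H i := by
    by_contra hcon
    push Not at hcon
    exact E0 hc hmax hHc hoff (show 0 + 1 < m by omega) (hcon 0 (by omega))
      (hcon 1 (by omega))
  obtain ⟨c', hc'def⟩ : ∃ c' : ℕ → V, c' = fun i => c ((i + (i0 + 1)) % m) := ⟨_, rfl⟩
  have hc' : CF G c' m := by rw [hc'def]; exact hc.rotate _
  have hoff' : ∀ x ∈ H, ∀ i < m, c' i ≠ x := by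
    intro x hx i hi
    rw [hc'def]
    exact hoff x hx _ (Nat.mod_lt _ (by omega))
  set T : Finset ℕ := (range m).filter (fun i => TT G c' H i) with hTdef
  have hT : ∀ i, i ∈ T ↔ i < m ∧ TT G c' H i := by
    intro i
    rw [hTdef, mem_filter, mem_range]
  have hlast : m - 1 ∉ T := by
    rw [hT]
    rintro ⟨-, h⟩
    rw [hc'def] at h
    have h5 : (m - 1 + (i0 + 1)) % m = i0 := by
      rw [show m - 1 + (i0 + 1) = i0 + m by omega, Nat.add_mod_right, Nat.mod_eq_of_lt hi0]
    unfold TT at h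
    dsimp only at h
    rw [h5] at h
    exact hTi0 h
  have hTs := few_T hG hc' hmax hHc hoff' hmem0 T hT hlast
  -- the two parts
  set A : Finset V := univ.filter (fun x => x ∈ H) with hA
  set TV : Finset V := T.image c' with hTV
  set B : Finset V := univ \ (A ∪ TV) with hB
  have hAne : A.Nonempty := ⟨h0, mem_filter.mpr ⟨mem_univ _, hmem0⟩⟩
  have hBne : B.Nonempty := by
    refine ⟨c' (m - 1), ?_⟩
    rw [hB, mem_sdiff]
    refine ⟨mem_univ _, fun hmem => ?_⟩
    rcases mem_union.mp hmem with h1 | h1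
    · exact hoff' _ (mem_filter.mp h1).2 (m - 1) (by omega) rfl
    · obtain ⟨j, hj, hji⟩ := mem_image.mp h1
      have := hc'.inj j (m - 1) ((hT j).mp hj).1 (by omega) hji
      subst this
      exact hlast hj
  have hon : ∀ x, (∀ i < m, c i ≠ x) ∨ ∃ i < m, c' i = x := by
    intro x
    by_cases hx : ∀ i < m, c i ≠ x
    · exact Or.inl hx
    · push Not at hx
      obtain ⟨i, hi, rfl⟩ := hx
      refine Or.inr ⟨(i + (m - (i0 + 1) % m)) % m, Nat.mod_lt _ (by omega), ?_⟩
      rw [hc'def]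
      dsimp only
      rw [rot_mod hi]
  have hno : ∀ x ∈ A, ∀ y ∈ B, ¬ G.Adj x y := by
    intro x hx y hy hadj
    have hxH : x ∈ H := (mem_filter.mp hx).2
    have hyB := (mem_sdiff.mp hy).2
    rcases hon y with hyoff | ⟨i, hi, rfl⟩
    · apply hyB
      refine mem_union_left _ (mem_filter.mpr ⟨mem_univ _, ?_⟩)
      have h1 : (offG G c m).Adj x y := ⟨hadj, hoff x hxH, hyoff⟩
      exact SimpleGraph.Reachable.trans hxH h1.reachable
    · apply hyB
      exact mem_union_right _ (mem_image.mpr ⟨i, (hT i).mpr ⟨hi, x, hxH, hadj.symm⟩, rfl⟩)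
  have hdis : Disjoint A B := by
    rw [disjoint_left]
    intro x hx hx'
    exact (mem_sdiff.mp hx').2 (mem_union_left _ hx)
  obtain ⟨p, q, hp, hq, hpq, hAc, hBc⟩ := two_parts hG R hR A B hAne hBne hdis hno
  have hg := hgap p q hp hq hpq
  have hTVc : TV.card ≤ T.card := card_image_le
  have hBcard : B.card + (A ∪ TV).card = Fintype.card V := by
    have := card_sdiff_add_card_eq_card (subset_univ (A ∪ TV))
    rw [card_univ] at this
    exact this
  have hun := card_union_le A TV
  have hp0 := (hR p hp).pos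
  have hq0 := (hR q hq).pos
  omega

end Pool.Agent.RamseyRow
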