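import Pool.Agent.Lib.MP_078aef_co_row.Low
import Pool.Agent.Lib.MP_078aef_co_row.Row
import Pool.Agent.Lib.MP_078aef_co_row.Rec

/-!
For every `k ≥ 4` there are arbitrarily large `s` such that all Ramsey-critical `(k,s)`-graphs are
Hamiltonian.
-/

namespace Pool.Agent.RamseyRow

open Finset Pool.Agent.RamseyHam

theorem ramsey_unbounded (k : ℕ) (hk : 4 ≤ k) (M : ℕ) : ∃ s, 2 ≤ s ∧ M * s ^ 2 ≤ ramsey k s := by
  obtain ⟨t, ht⟩ : ∃ t, t = max 100 M := ⟨_, rfl⟩
  have ht1 : 100 ≤ t := by rw [ht]; exact le_max_left _ _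
  have ht2 : M ≤ t := by rw [ht]; exact le_max_right _ _
  obtain ⟨H, hH1, hH2⟩ := low t ht1
  have hs : 2 ≤ t ^ 24 := by
    calc 2 ≤ t := by omega
      _ = t ^ 1 := (pow_one t).symm
      _ ≤ t ^ 24 := Nat.pow_le_pow_right (by omega) (by norm_num)
  refine ⟨t ^ 24, hs, ?_⟩
  have h1 : KS k (t ^ 24) H := ⟨hH1.mono hk, hH2⟩
  have h2 := (isRam_ramsey (k := k) (s := t ^ 24) (by omega) (by omega)).card_lt h1
  rw [Fintype.card_fin] at h2
  calc M * (t ^ 24) ^ 2 ≤ t ^ 2 * (t ^ 24) ^ 2 := by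
        refine Nat.mul_le_mul_right _ (ht2.trans ?_)
        calc t = t ^ 1 := (pow_one t).symm
          _ ≤ t ^ 2 := Nat.pow_le_pow_right (by omega) (by norm_num)
    _ = t ^ 50 := by ring
    _ ≤ ramsey k (t ^ 24) := h2.le

theorem rows (k : ℕ) (hk : 4 ≤ k) (S : ℕ) : ∃ s, S ≤ s ∧
    ∀ (V : Type) [Fintype V] [DecidableEq V] (G : SimpleGraph V), IsCritical k s G →
      ∃ (a : V) (p : G.Walk a a), p.IsHamiltonianCycle := by
  obtain ⟨s, hs1, hs2, hs3, hrec⟩ := exists_record (fun s => ramsey k s) (ramsey_unbounded k hk)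
    (max S 5)
  have hs5 : 5 ≤ s := (le_max_right _ _).trans hs1
  refine ⟨s, (le_max_left _ _).trans hs1, ?_⟩
  intro V _ _ G hG
  have hR : ∀ p, 2 ≤ p → IsRam k p (ramsey k p) := fun p hp =>
    isRam_ramsey (by omega) (by omega)
  have hKS : KS k s G := ⟨hG.cliqueFree, (indep_iff G s).mp hG.indep⟩
  have hcrit : Fintype.card V + 1 = ramsey k s := by
    have h1 := hG.card
    have h2 := (hR s hs2).pos
    omega
  obtain ⟨l, hl, hlen⟩ := row_main hk hs2 hKS (fun p => ramsey k p) hR hcrit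
    (fun p q hp hq hpq => gap_of_record (fun s => ramsey k s) s hs5 hs3 hrec p q hp hq hpq)
  exact hl.hamiltonian hlen

end Pool.Agent.RamseyRow
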