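import Pool.Agent.Lib.MP_078aef_co_row.Prob
import Pool.Agent.Lib.MP_078aef_co_row.Det

/-!
`R(4,s) / s ^ 2` is unbounded.
-/

namespace Pool.Agent.RamseyRow

open Finset Pool.Agent.Lib.MP_56e41f_co Pool.Agent.RamseyHam

/-- first numerical estimate -/
theorem num_a (t : ℕ) (ht : 100 ≤ t) :
    ((t : ℝ) ^ 50) ^ (t ^ 24) * (2 ^ (6 * t ^ 26) * (1 - ((t : ℝ) ^ 21)⁻¹ / 2) ^ ((t ^ 24).choose 2))
      ≤ 1 / 3 := by
  have htR : (100 : ℝ) ≤ t := by exact_mod_cast ht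
  have htpos : (0 : ℝ) < t := by linarith
  have e1 : ((t : ℝ) ^ 50) ^ (t ^ 24) ≤ Real.exp (50 * (t : ℝ) ^ 25) := by
    have h1 : (t : ℝ) ≤ Real.exp t := by
      have := Real.add_one_le_exp (t : ℝ)
      linarith
    calc ((t : ℝ) ^ 50) ^ (t ^ 24) = (t : ℝ) ^ (50 * t ^ 24) := by rw [pow_mul]
      _ ≤ (Real.exp t) ^ (50 * t ^ 24) := pow_le_pow_left₀ htpos.le h1 _
      _ = Real.exp (50 * (t : ℝ) ^ 25) := by
          rw [← Real.exp_nat_mul]
          congr 1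
          push_cast
          ring
  have e2 : (2 : ℝ) ^ (6 * t ^ 26) ≤ Real.exp (6 * (t : ℝ) ^ 26) := by
    have h1 : (2 : ℝ) ≤ Real.exp 1 := by
      have := Real.add_one_le_exp (1 : ℝ)
      linarith
    calc (2 : ℝ) ^ (6 * t ^ 26) ≤ (Real.exp 1) ^ (6 * t ^ 26) := pow_le_pow_left₀ (by norm_num) h1 _
      _ = Real.exp (6 * (t : ℝ) ^ 26) := by
          rw [← Real.exp_nat_mul]
          congr 1
          push_cast
          ring
  have hinv : ((t : ℝ) ^ 21)⁻¹ ≤ 1 := inv_le_one_of_one_le₀ (one_le_pow₀ (by linarith))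
  have hinv0 : 0 < ((t : ℝ) ^ 21)⁻¹ := by positivity
  have e3 : (1 - ((t : ℝ) ^ 21)⁻¹ / 2) ^ ((t ^ 24).choose 2) ≤ Real.exp (-((t : ℝ) ^ 27 / 8)) := by
    have h1 : 1 - ((t : ℝ) ^ 21)⁻¹ / 2 ≤ Real.exp (-(((t : ℝ) ^ 21)⁻¹ / 2)) :=
      Real.one_sub_le_exp_neg _
    have h2 : (t : ℝ) ^ 48 / 4 ≤ ((t ^ 24).choose 2 : ℕ) := by
      rw [Nat.cast_choose_two]
      push_cast
      have h3 : (1 : ℝ) ≤ (t : ℝ) ^ 24 / 2 := by
        have : (100 : ℝ) ^ 24 ≤ (t : ℝ) ^ 24 := pow_le_pow_left₀ (by norm_num) htR _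
        have h4 : (2 : ℝ) ≤ 100 ^ 24 := by norm_num
        linarith
      have h5 : (0 : ℝ) < (t : ℝ) ^ 24 := by positivity
      have h6 : (t : ℝ) ^ 48 = (t : ℝ) ^ 24 * (t : ℝ) ^ 24 := by ring
      rw [h6]
      nlinarith
    calc (1 - ((t : ℝ) ^ 21)⁻¹ / 2) ^ ((t ^ 24).choose 2)
        ≤ (Real.exp (-(((t : ℝ) ^ 21)⁻¹ / 2))) ^ ((t ^ 24).choose 2) :=
          pow_le_pow_left₀ (by linarith) h1 _
      _ = Real.exp (-(((t ^ 24).choose 2 : ℕ) * (((t : ℝ) ^ 21)⁻¹ / 2))) := by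
          rw [← Real.exp_nat_mul]
          congr 1
          ring
      _ ≤ Real.exp (-((t : ℝ) ^ 27 / 8)) := by
          apply Real.exp_le_exp.mpr
          have h7 : (t : ℝ) ^ 48 / 4 * (((t : ℝ) ^ 21)⁻¹ / 2)
              ≤ ((t ^ 24).choose 2 : ℕ) * (((t : ℝ) ^ 21)⁻¹ / 2) :=
            mul_le_mul_of_nonneg_right h2 (by positivity)
          have h8 : (t : ℝ) ^ 48 / 4 * (((t : ℝ) ^ 21)⁻¹ / 2) = (t : ℝ) ^ 27 / 8 := by
            field_simp
            ring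
          linarith
  have hbase : 0 ≤ (1 - ((t : ℝ) ^ 21)⁻¹ / 2) ^ ((t ^ 24).choose 2) :=
    pow_nonneg (by linarith) _
  calc ((t : ℝ) ^ 50) ^ (t ^ 24) * (2 ^ (6 * t ^ 26) *
        (1 - ((t : ℝ) ^ 21)⁻¹ / 2) ^ ((t ^ 24).choose 2))
      ≤ Real.exp (50 * (t : ℝ) ^ 25) * (Real.exp (6 * (t : ℝ) ^ 26) *
        Real.exp (-((t : ℝ) ^ 27 / 8))) := by
        refine mul_le_mul e1 ?_ (by positivity) (Real.exp_pos _).le
        exact mul_le_mul e2 e3 hbase (Real.exp_pos _).le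
    _ = Real.exp (50 * (t : ℝ) ^ 25 + (6 * (t : ℝ) ^ 26 + -((t : ℝ) ^ 27 / 8))) := by
        rw [← Real.exp_add, ← Real.exp_add]
    _ ≤ Real.exp (-2) := by
        apply Real.exp_le_exp.mpr
        have h1 : (1 : ℝ) ≤ (t : ℝ) ^ 25 := one_le_pow₀ (by linarith)
        have h2 : (t : ℝ) ^ 26 = t * (t : ℝ) ^ 25 := by ring
        have h3 : (t : ℝ) ^ 27 = t * (t * (t : ℝ) ^ 25) := by ring
        rw [h2, h3]
        have h4 : 0 ≤ (t - 100) * (t : ℝ) ^ 25 := mul_nonneg (by linarith) (by positivity)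
        have h5 : 0 ≤ (t - 100) * (t * (t : ℝ) ^ 25) := mul_nonneg (by linarith) (by positivity)
        nlinarith
    _ ≤ 1 / 3 := by
        have h1 : (3 : ℝ) ≤ Real.exp 2 := by
          have := Real.add_one_le_exp (2 : ℝ)
          linarith
        rw [Real.exp_neg, ← one_div]
        exact one_div_le_one_div_of_le (by norm_num) h1

/-- second numerical estimate -/
theorem num_b (t N : ℕ) (ht : 100 ≤ t) (hN : N ≤ (t ^ 24) ^ 2 * (t ^ 50) ^ 2) :
    ((t : ℝ) ^ 50) ^ (t ^ 24) * ((N.choose (t ^ 26) : ℝ) * (((t : ℝ) ^ 21)⁻¹) ^ (6 * t ^ 26))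
      ≤ 1 / 3 := by
  have htR : (100 : ℝ) ≤ t := by exact_mod_cast ht
  have htpos : (0 : ℝ) < t := by linarith
  obtain ⟨m, hm⟩ : ∃ m, m = t ^ 26 := ⟨_, rfl⟩
  have hmR : (m : ℝ) = (t : ℝ) ^ 26 := by rw [hm]; push_cast; ring
  have hmpos : (0 : ℝ) < m := by rw [hmR]; positivity
  rw [← hm]
  have hfact : (0 : ℝ) < (m.factorial : ℝ) := by exact_mod_cast m.factorial_pos
  have h1 : (N.choose m : ℝ) ≤ (N : ℝ) ^ m / m.factorial := Nat.choose_le_pow_div m N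
  have h2 : (N : ℝ) ≤ (t : ℝ) ^ 148 := by
    have : (N : ℝ) ≤ ((t ^ 24) ^ 2 * (t ^ 50) ^ 2 : ℕ) := by exact_mod_cast hN
    refine this.trans (le_of_eq ?_)
    push_cast
    ring
  have h3 : (m : ℝ) ^ m / m.factorial ≤ Real.exp m := Real.pow_div_factorial_le_exp m hmpos.le m
  have h4 : Real.exp (1 : ℝ) ≤ t := by
    have := Real.exp_one_lt_d9
    linarith
  have h5 : (N.choose m : ℝ) * (((t : ℝ) ^ 21)⁻¹) ^ (6 * m) ≤ (((t : ℝ)⁻¹) ^ 3) ^ m := by
    have h6 : (1 : ℝ) / m.factorial ≤ Real.exp m / (m : ℝ) ^ m := by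
      rw [div_le_div_iff₀ hfact (by positivity)]
      rw [div_le_iff₀ hfact] at h3
      linarith
    calc (N.choose m : ℝ) * (((t : ℝ) ^ 21)⁻¹) ^ (6 * m)
        ≤ ((N : ℝ) ^ m / m.factorial) * (((t : ℝ) ^ 21)⁻¹) ^ (6 * m) :=
          mul_le_mul_of_nonneg_right h1 (by positivity)
      _ ≤ (((t : ℝ) ^ 148) ^ m / m.factorial) * (((t : ℝ) ^ 21)⁻¹) ^ (6 * m) := by
          refine mul_le_mul_of_nonneg_right ?_ (by positivity)
          exact div_le_div_of_nonneg_right (pow_le_pow_left₀ (Nat.cast_nonneg _) h2 m) hfact.le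
      _ = ((t : ℝ) ^ 148 * (((t : ℝ) ^ 21)⁻¹) ^ 6) ^ m * (1 / m.factorial) := by
          rw [mul_pow, ← pow_mul (((t : ℝ) ^ 21)⁻¹) 6 m]
          ring
      _ ≤ ((t : ℝ) ^ 148 * (((t : ℝ) ^ 21)⁻¹) ^ 6) ^ m * (Real.exp m / (m : ℝ) ^ m) :=
          mul_le_mul_of_nonneg_left h6 (by positivity)
      _ = ((t : ℝ) ^ 148 * (((t : ℝ) ^ 21)⁻¹) ^ 6 * (Real.exp 1 / m)) ^ m := by
          rw [mul_pow _ (Real.exp 1 / m), div_pow, ← Real.exp_nat_mul, mul_one]
      _ ≤ (((t : ℝ)⁻¹) ^ 3) ^ m := by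
          refine pow_le_pow_left₀ (by positivity) ?_ m
          have h7 : (t : ℝ) ^ 148 * (((t : ℝ) ^ 21)⁻¹) ^ 6 * (Real.exp 1 / m)
              ≤ (t : ℝ) ^ 148 * (((t : ℝ) ^ 21)⁻¹) ^ 6 * (t / m) := by
            refine mul_le_mul_of_nonneg_left ?_ (by positivity)
            exact div_le_div_of_nonneg_right h4 hmpos.le
          refine h7.trans (le_of_eq ?_)
          rw [hmR]
          field_simp
  calc ((t : ℝ) ^ 50) ^ (t ^ 24) * ((N.choose m : ℝ) * (((t : ℝ) ^ 21)⁻¹) ^ (6 * m))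
      ≤ ((t : ℝ) ^ 50) ^ (t ^ 24) * (((t : ℝ)⁻¹) ^ 3) ^ m :=
        mul_le_mul_of_nonneg_left h5 (by positivity)
    _ = (t : ℝ) ^ (50 * t ^ 24) * ((t : ℝ)⁻¹) ^ (3 * m) := by rw [← pow_mul, ← pow_mul]
    _ ≤ (t : ℝ) ^ (3 * m - 1) * ((t : ℝ)⁻¹) ^ (3 * m) := by
        refine mul_le_mul_of_nonneg_right ?_ (by positivity)
        refine pow_le_pow_right₀ (by linarith) ?_
        have h8 : t ^ 26 = t * t * t ^ 24 := by ring
        have h9 : 100 * 100 * t ^ 24 ≤ t * t * t ^ 24 :=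
          Nat.mul_le_mul_right _ (Nat.mul_le_mul ht ht)
        have h10 : 1 ≤ t ^ 24 := Nat.one_le_pow _ _ (by omega)
        omega
    _ = (t : ℝ)⁻¹ := by
        obtain ⟨u, hu⟩ : ∃ u, 3 * m = u + 1 := ⟨3 * m - 1, by
          have : 0 < m := by exact_mod_cast hmpos
          omega⟩
        rw [hu, Nat.add_sub_cancel, pow_succ, ← mul_assoc, ← mul_pow, mul_inv_cancel₀ htpos.ne',
          one_pow, one_mul]
    _ ≤ 1 / 3 := by
        rw [← one_div]
        exact one_div_le_one_div_of_le (by norm_num) (by linarith)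

/-- `R(4,s) / s ^ 2` is unbounded -/
theorem low (t : ℕ) (ht : 100 ≤ t) : ∃ H : SimpleGraph (Fin (t ^ 50)), KS 4 (t ^ 24) H := by
  classical
  obtain ⟨n, hn⟩ : ∃ n, n = t ^ 50 := ⟨_, rfl⟩
  obtain ⟨s, hs⟩ : ∃ s, s = t ^ 24 := ⟨_, rfl⟩
  obtain ⟨m, hm⟩ : ∃ m, m = t ^ 26 := ⟨_, rfl⟩
  obtain ⟨p, hp⟩ : ∃ p : ℝ, p = ((t : ℝ) ^ 21)⁻¹ := ⟨_, rfl⟩
  have htR : (100 : ℝ) ≤ t := by exact_mod_cast ht
  have hp0 : 0 ≤ p := by rw [hp]; positivity
  have hp1 : p ≤ 1 := by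
    rw [hp]
    exact inv_le_one_of_one_le₀ (one_le_pow₀ (by linarith))
  rw [← hn, ← hs]
  set E : Finset (Sym2 (Fin n)) := ein univ with hE
  by_contra hcon
  -- the bad event has probability one
  have hbad : ∀ F ⊆ E, (∃ S ∈ (univ : Finset (Fin n)).powersetCard s, (F ∩ ein S).card ≤ 6 * m) ∨
      ∃ S ∈ (univ : Finset (Fin n)).powersetCard s, ∃ M ∈ (meet S).powersetCard m,
        (M : Set (Finset (Fin n))).PairwiseDisjoint ein ∧ ∀ K ∈ M, ein K ⊆ F := by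
    intro F hF
    by_contra h
    rw [not_or] at h
    obtain ⟨ha, hb⟩ := h
    push Not at ha
    refine hcon (k4_det F s m (fun S hS h => ?_) (fun S hS h => hb ⟨S, hS, h⟩))
    exact absurd (ha S hS) (not_lt.mpr h)
  have h1 : (1 : ℝ) ≤ pr p E (fun F => (∃ S ∈ (univ : Finset (Fin n)).powersetCard s,
      (F ∩ ein S).card ≤ 6 * m)) + pr p E (fun F => ∃ S ∈ (univ : Finset (Fin n)).powersetCard s,
      ∃ M ∈ (meet S).powersetCard m, (M : Set (Finset (Fin n))).PairwiseDisjoint ein ∧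
        ∀ K ∈ M, ein K ⊆ F) := by
    refine le_trans ?_ (pr_or_le hp0 hp1 E _ _)
    unfold pr
    rw [← ex_const p E 1]
    exact ex_mono hp0 hp1 E (fun F hF => by rw [ind_true (hbad F hF)])
  have hcount : (((univ : Finset (Fin n)).powersetCard s).card : ℝ) ≤ ((t : ℝ) ^ 50) ^ (t ^ 24) := by
    rw [card_powersetCard, card_univ, Fintype.card_fin, ← hs]
    have h2 : (n.choose s : ℝ) ≤ (n : ℝ) ^ s := by exact_mod_cast Nat.choose_le_pow n s
    refine h2.trans (le_of_eq ?_)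
    rw [hn]
    push_cast
    ring
  have h2 : pr p E (fun F => (∃ S ∈ (univ : Finset (Fin n)).powersetCard s,
      (F ∩ ein S).card ≤ 6 * m)) ≤ 1 / 3 := by
    have h3 : pr p E (fun F => (∃ S ∈ (univ : Finset (Fin n)).powersetCard s,
        (F ∩ ein S).card ≤ 6 * m)) ≤ ∑ S ∈ (univ : Finset (Fin n)).powersetCard s,
        pr p E (fun F => (F ∩ ein S).card ≤ 6 * m) := by
      unfold pr
      rw [← ex_sum]
      exact ex_mono hp0 hp1 E (fun F _ => ind_exists_le _ _)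
    refine h3.trans ?_
    have h4 : ∀ S ∈ (univ : Finset (Fin n)).powersetCard s,
        pr p E (fun F => (F ∩ ein S).card ≤ 6 * m) ≤ 2 ^ (6 * m) * (1 - p / 2) ^ (s.choose 2) := by
      intro S hS
      have h5 := pr_few hp0 hp1 (ein_mono (subset_univ S)) (6 * m)
      rwa [card_ein, (mem_powersetCard.mp hS).2] at h5
    refine (sum_le_sum h4).trans ?_
    rw [sum_const, nsmul_eq_mul]
    have h6 := num_a t ht
    rw [← hs, ← hm, ← hp] at h6
    refine le_trans (mul_le_mul_of_nonneg_right hcount ?_) ?_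
    · exact mul_nonneg (by positivity) (pow_nonneg (by linarith) _)
    · rw [← hs]
      exact h6
  have h3 : pr p E (fun F => ∃ S ∈ (univ : Finset (Fin n)).powersetCard s,
      ∃ M ∈ (meet S).powersetCard m, (M : Set (Finset (Fin n))).PairwiseDisjoint ein ∧
        ∀ K ∈ M, ein K ⊆ F) ≤ 1 / 3 := by
    have h3 : pr p E (fun F => ∃ S ∈ (univ : Finset (Fin n)).powersetCard s,
      ∃ M ∈ (meet S).powersetCard m, (M : Set (Finset (Fin n))).PairwiseDisjoint ein ∧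
        ∀ K ∈ M, ein K ⊆ F) ≤ ∑ S ∈ (univ : Finset (Fin n)).powersetCard s,
        pr p E (fun F => ∃ M ∈ (meet S).powersetCard m,
          (M : Set (Finset (Fin n))).PairwiseDisjoint ein ∧ ∀ K ∈ M, ein K ⊆ F) := by
      unfold pr
      rw [← ex_sum]
      exact ex_mono hp0 hp1 E (fun F _ => ind_exists_le _ _)
    refine h3.trans ?_
    obtain ⟨N, hN⟩ : ∃ N, N = s ^ 2 * n ^ 2 := ⟨_, rfl⟩
    have h4 : ∀ S ∈ (univ : Finset (Fin n)).powersetCard s,
        pr p E (fun F => ∃ M ∈ (meet S).powersetCard m,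
          (M : Set (Finset (Fin n))).PairwiseDisjoint ein ∧ ∀ K ∈ M, ein K ⊆ F)
          ≤ (N.choose m : ℝ) * p ^ (6 * m) := by
      intro S hS
      have h5 := pr_family hp0 hp1 E ein (meet S) (fun K _ => ein_mono (subset_univ K))
        (fun K hK => by
          unfold meet at hK
          rw [card_ein, (mem_powersetCard.mp (mem_filter.mp hK).1).2]
          decide) m
      refine h5.trans (mul_le_mul_of_nonneg_right ?_ (by positivity))
      have h6 := card_meet S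
      rw [(mem_powersetCard.mp hS).2, Fintype.card_fin, ← hN] at h6
      exact_mod_cast Nat.choose_le_choose m h6
    refine (sum_le_sum h4).trans ?_
    rw [sum_const, nsmul_eq_mul]
    have h6 := num_b t N ht (by rw [hN, hs, hn])
    rw [← hs, ← hm, ← hp] at h6
    refine le_trans (mul_le_mul_of_nonneg_right hcount (by positivity)) ?_
    rw [← hs]
    exact h6
  linarith

end Pool.Agent.RamseyRow
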