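import Pool.Agent.Lib.MP_56e41f_co.Ex

/-!
Three estimates for random sets.
-/

namespace Pool.Agent.RamseyRow

open Finset Pool.Agent.Lib.MP_56e41f_co

variable {α : Type*} [DecidableEq α]

/-- splitting off a subset of the ground set -/
theorem ex_split (p : ℝ) {E W : Finset α} (hW : W ⊆ E) (f : Finset α → ℝ) :
    ex p E f = ex p W (fun F => ex p (E \ W) (fun F' => f (F ∪ F'))) := by
  rw [← ex_union p W (E \ W) disjoint_sdiff f, union_sdiff_of_subset hW]

/-- few elements in a given set -/
theorem pr_few {p : ℝ} (h0 : 0 ≤ p) (h1 : p ≤ 1) {E W : Finset α} (hW : W ⊆ E) (r : ℕ) :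
    pr p E (fun F => (F ∩ W).card ≤ r) ≤ 2 ^ r * (1 - p / 2) ^ W.card := by
  have key : ex p E (fun F => (1 / 2 : ℝ) ^ (F ∩ W).card) = (1 - p / 2) ^ W.card := by
    rw [ex_split p hW]
    have h2 : ∀ F ⊆ W, ex p (E \ W) (fun F' => (1 / 2 : ℝ) ^ ((F ∪ F') ∩ W).card)
        = (1 / 2 : ℝ) ^ F.card := by
      intro F hF
      rw [← ex_const p (E \ W) ((1 / 2 : ℝ) ^ F.card)]
      refine ex_congr p _ (fun F' hF' => ?_)
      congr 2
      rw [union_inter_distrib_right, inter_eq_left.mpr hF]
      have : F' ∩ W = ∅ := by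
        rw [← disjoint_iff_inter_eq_empty]
        exact disjoint_of_subset_left hF' sdiff_disjoint
      rw [this, union_empty]
    rw [ex_congr p W h2]
    unfold ex
    have h3 := Finset.sum_pow_mul_eq_add_pow (p / 2) (1 - p) W
    rw [show p / 2 + (1 - p) = 1 - p / 2 by ring] at h3
    rw [← h3]
    refine sum_congr rfl (fun F _ => ?_)
    dsimp only
    rw [div_pow, div_pow, one_pow]
    ring
  rw [← key, ← ex_mul_left]
  unfold pr
  refine ex_mono h0 h1 E (fun F _ => ?_)
  by_cases h : (F ∩ W).card ≤ r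
  · rw [ind_true h]
    have h4 : (1 : ℝ) = 2 ^ r * (1 / 2 : ℝ) ^ r := by
      rw [← mul_pow]
      norm_num
    calc (1 : ℝ) = 2 ^ r * (1 / 2 : ℝ) ^ r := h4
      _ ≤ 2 ^ r * (1 / 2 : ℝ) ^ (F ∩ W).card := by
        refine mul_le_mul_of_nonneg_left ?_ (by positivity)
        exact pow_le_pow_of_le_one (by norm_num) (by norm_num) h
  · rw [ind_false h]
    positivity

/-- all elements of a given set are present -/
theorem pr_subset (p : ℝ) {E W : Finset α} (hW : W ⊆ E) :
    pr p E (fun F => W ⊆ F) = p ^ W.card := by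
  unfold pr
  rw [ex_split p hW]
  have h2 : ∀ F ⊆ W, ex p (E \ W) (fun F' => ind (W ⊆ F ∪ F')) = ind (F = W) := by
    intro F hF
    rw [← ex_const p (E \ W) (ind (F = W))]
    refine ex_congr p _ (fun F' hF' => ?_)
    congr 1
    apply propext
    constructor
    · intro h
      refine Subset.antisymm hF (fun x hx => ?_)
      rcases mem_union.mp (h hx) with h' | h'
      · exact h'
      · exact absurd hx (mem_sdiff.mp (hF' h')).2
    · rintro rfl
      exact subset_union_left
  rw [ex_congr p W h2]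
  unfold ex
  rw [sum_eq_single W]
  · dsimp only
    rw [ind_true rfl]
    simp
  · intro F _ hF
    dsimp only
    rw [ind_false hF, mul_zero]
  · intro h
    exact absurd (mem_powerset_self W) h

/-- a family of disjoint sets of `6` elements -/
theorem pr_family {ι : Type*} [DecidableEq ι] {p : ℝ} (h0 : 0 ≤ p) (h1 : p ≤ 1) (E : Finset α)
    (e : ι → Finset α) (Ks : Finset ι) (he : ∀ K ∈ Ks, e K ⊆ E) (hc : ∀ K ∈ Ks, (e K).card = 6)
    (m : ℕ) :
    pr p E (fun F => ∃ S ∈ Ks.powersetCard m, (S : Set ι).PairwiseDisjoint e ∧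
      ∀ K ∈ S, e K ⊆ F) ≤ (Ks.card.choose m : ℝ) * p ^ (6 * m) := by
  unfold pr
  calc ex p E (fun F => ind (∃ S ∈ Ks.powersetCard m, (S : Set ι).PairwiseDisjoint e ∧
        ∀ K ∈ S, e K ⊆ F))
      ≤ ex p E (fun F => ∑ S ∈ Ks.powersetCard m, ind ((S : Set ι).PairwiseDisjoint e ∧
        ∀ K ∈ S, e K ⊆ F)) := ex_mono h0 h1 E (fun F _ => ind_exists_le _ _)
    _ = ∑ S ∈ Ks.powersetCard m, ex p E (fun F => ind ((S : Set ι).PairwiseDisjoint e ∧
        ∀ K ∈ S, e K ⊆ F)) := ex_sum _ _ _ _
    _ ≤ ∑ _S ∈ Ks.powersetCard m, p ^ (6 * m) := by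
        refine sum_le_sum (fun S hS => ?_)
        rw [mem_powersetCard] at hS
        by_cases hd : (S : Set ι).PairwiseDisjoint e
        · have hsub : S.biUnion e ⊆ E := by
            intro x hx
            obtain ⟨K, hK, hxK⟩ := mem_biUnion.mp hx
            exact he K (hS.1 hK) hxK
          have hcard : (S.biUnion e).card = 6 * m := by
            rw [card_biUnion (fun K hK K' hK' hne => hd hK hK' hne),
              sum_congr rfl (fun K hK => hc K (hS.1 hK)), sum_const, hS.2, smul_eq_mul, mul_comm]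
          have h2 := pr_subset p hsub
          rw [hcard] at h2
          rw [← h2]
          unfold pr
          refine ex_mono h0 h1 E (fun F _ => ind_mono ?_)
          rintro ⟨-, h⟩
          exact biUnion_subset.mpr h
        · have : ex p E (fun F => ind ((S : Set ι).PairwiseDisjoint e ∧ ∀ K ∈ S, e K ⊆ F)) = 0 := by
            rw [← ex_const p E 0]
            exact ex_congr p E (fun F _ => ind_false (fun h => hd h.1))
          rw [this]
          positivity
    _ = (Ks.card.choose m : ℝ) * p ^ (6 * m) := by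
        rw [sum_const, card_powersetCard, nsmul_eq_mul]

end Pool.Agent.RamseyRow
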